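import Pool.Agent.Results.MP_7624cc_lc.VanLambalgenPairs

set_option autoImplicit false

namespace Pool.Agent.Results.MP_7624cc_lc.GenericFailure

open Pool.Agent.Helper227
open MeasureTheory Encodable
open scoped ENNReal
open Pool.Agent.Results.MP_7624cc_lc.VanLambalgenPairs
  (MinPair RandMP VLProperty ae_mlr countable_below ae_minPair ae_minPair_xor)

/-- Condition (i): `X ⊕ Y ∈ Rand^A_B`. -/
def CondI (A B X Y : ℕ → Bool) : Prop := RandMP A B (join X Y)

/-- Condition (ii): `X ∈ Rand^A_B` and `Y ∈ Rand^{A ⊕ X}_B`. -/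
def CondII (A B X Y : ℕ → Bool) : Prop := RandMP A B X ∧ RandMP (join A X) B Y

/-- Condition (iii): `Y ∈ Rand^A_B` and `X ∈ Rand^{A ⊕ Y}_B`. -/
def CondIII (A B X Y : ℕ → Bool) : Prop := RandMP A B Y ∧ RandMP (join A Y) B X

/-- every null set is avoided by the sets random relative to a suitable oracle -/
theorem exists_oracle {N : Set (ℕ → Bool)} (hN : lam N = 0) : ∃ A : ℕ → Bool, ∀ Z ∈ N, ¬ MLR A Z := by
  classical
  have hU : ∀ n : ℕ, ∃ U : Set (ℕ → Bool), N ⊆ U ∧ IsOpen U ∧ lam U < (1 / 2) ^ n := by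
    intro n
    refine Set.exists_isOpen_lt_of_lt N _ ?_
    rw [hN]
    exact ENNReal.pow_pos (by norm_num) _
  choose U hNU hUo hUm using hU
  let A : ℕ → Bool := fun m => decide (∃ σ : List Bool, encode σ = (Nat.unpair m).2 ∧
    cyl σ ⊆ U (Nat.unpair m).1)
  have hA : ∀ n (σ : List Bool), A (Nat.pair n (encode σ)) = true ↔ cyl σ ⊆ U n := by
    intro n σ
    simp only [A, decide_eq_true_eq, Nat.unpair_pair]
    constructor
    · rintro ⟨τ, h1, h2⟩
      rw [encode_injective h1] at h2
      exact h2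
    · intro h
      exact ⟨σ, rfl, h⟩
  obtain ⟨E, hE⟩ : ∃ E : List Bool × ℕ × List Bool → Prop, E = fun x =>
      x.1[Nat.pair x.2.1 (encode x.2.2)]? = some true := ⟨_, rfl⟩
  have hS : S1 E := by
    rw [hE]
    refine S1.of_prim (Primrec.eq.comp (Primrec.list_getElem?.comp Primrec.fst
      (Primrec₂.natPair.comp (Primrec.fst.comp Primrec.snd)
        (Primrec.encode.comp (Primrec.snd.comp Primrec.snd)))) (Primrec.const _))
  have hUE : ∀ n, UE E A n = U n := by
    intro n
    ext X
    rw [hE]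
    simp only [UE, Set.mem_ofPred_eq]
    constructor
    · rintro ⟨s, t, h⟩
      by_cases hlt : Nat.pair n (encode (pre X t)) < s
      · rw [pre_getElem? _ _ _ hlt] at h
        exact (hA n _).1 (by simpa using h) (mem_cyl_pre X t)
      · rw [pre_getElem?_none _ _ _ (by omega)] at h
        cases h
    · intro hX
      obtain ⟨t, ht⟩ := exists_cyl_subset (hUo n) hX
      refine ⟨Nat.pair n (encode (pre X t)) + 1, t, ?_⟩
      rw [pre_getElem? _ _ _ (Nat.lt_succ_self _), (hA n _).2 ht]
  have ht : IsMLTest A (UE E A) := isMLTest_of_E hS (fun n => by rw [hUE]; exact (hUm n).le)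
  refine ⟨A, fun Z hZ hM => hM _ ht ?_⟩
  rw [Set.mem_iInter]
  intro n
  rw [hUE]
  exact hNU n hZ

theorem vl_iff (A B : ℕ → Bool) : VLProperty A B ↔ ∀ Z, MLR A Z → MinPair Z B := by
  rw [VanLambalgenPairs.result]
  constructor
  · intro h Z hZ C h1 h2
    by_contra hC
    exact h C h2 hC Z hZ h1
  · intro h C hCB hC Z hZ hCZ
    exact hC (h Z hZ C hCZ hCB)

/-- the failure is generic -/
theorem generic_failure {A B : ℕ → Bool} (h : ¬ VLProperty A B) :
    ∀ᵐ X ∂lam, ∃ Y, CondII A B X Y ∧ CondIII A B X Y ∧ ¬ CondI A B X Y := by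
  rw [VanLambalgenPairs.result] at h
  push Not at h
  obtain ⟨C, hCB, hC, Z, hZ, hCZ⟩ := h
  filter_upwards [ae_mlr (join A Z), ae_minPair B, ae_minPair_xor B Z] with X hX1 hX2 hX3
  have hXZ : MLR A (join X Z) := (MLR.join_of hZ hX1).symm
  have hZ' : MLR (join A X) Z := hXZ.right_rel
  have hXA : MLR A X := hXZ.left
  have hY : MLR (join A X) (fun n => xor (Z n) (X n)) := hZ'.xor_of (tLe_join_right A X)
  have hcomm : (fun n => xor (X n) (Z n)) = (fun n => xor (Z n) (X n)) := by
    funext n; exact Bool.xor_comm _ _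
  rw [hcomm] at hX3
  have hXY : MLR A (join X (fun n => xor (Z n) (X n))) := MLR.join_of hXA hY
  have hYX : MLR A (join (fun n => xor (Z n) (X n)) X) := hXY.symm
  refine ⟨fun n => xor (Z n) (X n), ⟨⟨hXA, hX2⟩, ⟨hY, hX3⟩⟩,
    ⟨⟨hYX.left, hX3⟩, ⟨hYX.right_rel, hX2⟩⟩, fun hi => ?_⟩
  have hZle : TLe Z (join X (fun n => xor (Z n) (X n))) := by
    have h1 := xor_tLe (tLe_join_left X (fun n => xor (Z n) (X n)))
      (tLe_join_right X (fun n => xor (Z n) (X n)))
    have h2 : (fun n => xor (X n) (xor (Z n) (X n))) = Z := by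
      funext n
      cases X n <;> cases Z n <;> rfl
    rwa [h2] at h1
  exact hC (hi.2 C (hCZ.trans hZle) hCB)

theorem vl_iff_weak (A B : ℕ → Bool) : VLProperty A B ↔
    ∀ X Y, CondII A B X Y → CondIII A B X Y → CondI A B X Y := by
  constructor
  · intro h X Y h2 _
    exact (h X Y).1.2 h2
  · intro h
    by_contra hcon
    obtain ⟨X, Y, h2, h3, h1⟩ := (generic_failure hcon).exists
    exact h1 (h X Y h2 h3)

theorem exists_left (B : ℕ → Bool) : ∃ A, VLProperty A B := by
  have hN : lam {Z | ¬ MinPair Z B} = 0 := ae_minPair B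
  obtain ⟨A, hA⟩ := exists_oracle hN
  refine ⟨A, (vl_iff A B).2 fun Z hZ => ?_⟩
  by_contra hcon
  exact hA Z hcon hZ

theorem exists_right (A : ℕ → Bool) : ∃ B, ¬ VLProperty A B := by
  have hc : ∀ᵐ Z ∂lam, ¬ Computable Z := by
    have hsub : {Z : ℕ → Bool | Computable Z} ⊆ {D : ℕ → Bool | TLe D (fun _ => false)} :=
      fun Z hZ => computable_iff_tLe.1 hZ
    have hcount := (countable_below (fun _ => false)).mono hsub
    have hz : lam {Z : ℕ → Bool | Computable Z} = 0 := by
      have he : {Z : ℕ → Bool | Computable Z} = ⋃ Z ∈ {Z : ℕ → Bool | Computable Z}, {Z} := by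
        ext; simp
      rw [he]
      refine (measure_biUnion_null_iff hcount).2 fun Z _ => ?_
      by_contra hpos
      obtain ⟨n, hn⟩ := ENNReal.exists_inv_two_pow_lt (show lam {Z} ≠ 0 from hpos)
      have h1 : lam {Z} ≤ (1 / 2) ^ n := by
        refine (measure_mono (t := cyl (pre Z n)) ?_).trans ?_
        · intro Y hY
          rw [Set.mem_singleton_iff] at hY
          rw [hY]
          exact mem_cyl_pre _ _
        · rw [lam_cyl, length_pre]
      rw [← one_div] at hn
      exact absurd (lt_of_lt_of_le hn h1) (lt_irrefl _)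
    rw [ae_iff]
    simpa using hz
  obtain ⟨Z, hZ1, hZ2⟩ := ((ae_mlr A).and hc).exists
  refine ⟨Z, fun h => hZ2 ?_⟩
  exact (vl_iff A Z).1 h Z hZ1 Z (TLe.refl Z) (TLe.refl Z)

/-- For all `A` and `B`: the pair `(A, B)` has the van Lambalgen property if and only if every
`A`-random set forms a minimal pair with `B` (that is, `Rand^A_B` consists of all `A`-random sets),
if and only if (ii) and (iii) together imply (i); and if it does not have the property, then for
almost every `X` there is `Y` satisfying (ii) and (iii) but not (i). The property is inherited by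
oracles above `A` and by sets below `B`; for every `B` it holds for some `A`, and for every `A` it
fails for some `B`. -/
theorem result :
    (∀ A B : ℕ → Bool,
      (VLProperty A B ↔ ∀ Z, MLR A Z → MinPair Z B) ∧
      (VLProperty A B ↔ ∀ X Y, CondII A B X Y → CondIII A B X Y → CondI A B X Y) ∧
      (¬ VLProperty A B →
        ∀ᵐ X ∂lam, ∃ Y, CondII A B X Y ∧ CondIII A B X Y ∧ ¬ CondI A B X Y) ∧
      (∀ A' B' : ℕ → Bool, TLe A A' → TLe B' B → VLProperty A B → VLProperty A' B')) ∧
    (∀ B, ∃ A, VLProperty A B) ∧ (∀ A, ∃ B, ¬ VLProperty A B) := by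
  refine ⟨fun A B => ⟨vl_iff A B, vl_iff_weak A B, generic_failure, ?_⟩, exists_left, exists_right⟩
  intro A' B' hA hB h
  rw [vl_iff] at h ⊢
  exact fun Z hZ C h1 h2 => h Z (hZ.mono hA) C h1 (h2.trans hB)

end Pool.Agent.Results.MP_7624cc_lc.GenericFailure
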